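import Mathlib

namespace Pool.Agent.Results.MP_97c21f_co.Linear

open Finset MvPolynomial

/-- the array `S_{P,Q}` given by (A), (B), (C); variable `0` is `m` and variable `1` is `n` -/
noncomputable def S (P Q : MvPolynomial (Fin 2) ℂ) : ℕ → ℕ → ℂ
  | 0, 0 => 1
  | 0, _ + 1 => 0
  | _ + 1, 0 => 0
  | m + 1, n + 1 => eval ![(m : ℂ), ((n + 1 : ℕ) : ℂ)] P * S P Q m (n + 1)
      + eval ![(m : ℂ), ((n + 1 : ℕ) : ℂ)] Q * S P Q m n

/-- `(P, Q)` is admissible: the row sums are `m ^ m` -/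
def Admissible (P Q : MvPolynomial (Fin 2) ℂ) : Prop :=
  ∀ m : ℕ, 1 ≤ m → ∑ n ∈ Icc 1 m, S P Q m n = (m : ℂ) ^ m

lemma elim (x y z : ℂ)
    (g0 : (-8)*x^3 + (-8)*x^2*y + 66*x^2 + 44*x*y + (-8)*x*z + (-183)*x + (-61)*y + 22*z + 170 = 0)
    (g1 : (-40)*x^4 + (-64)*x^3*y + 158*x^3 + (-24)*x^2*y^2 + 246*x^2*y + (-40)*x^2*z + 510*x^2 + 132*x*y^2 + (-24)*x*y*z + 96*x*y + (-62)*x*z + (-3113)*x + (-182)*y^2 + 66*y*z + (-811)*y + 472*z + 3688 = 0)
    (g2 : (-304)*x^5 + (-616)*x^4*y + 2452*x^4 + (-368)*x^3*y^2 + 3842*x^3*y + (-368)*x^3*z + (-11993)*x^3 + (-56)*x^2*y^3 + 1830*x^2*y^2 + (-376)*x^2*y*z + (-11767)*x^2*y + 1308*x^2*z + (203539/4)*x^2 + 308*x*y^3 + (-56)*x*y^2*z + (-1724)*x*y^2 + 862*x*y*z + (57331/2)*x*y + (-64)*x*z^2 + (-6857)*x*z + (-126202)*x + (-424)*y^3 + 154*y^2*z + (-5881/4)*y^2 + 469*y*z + (-35014)*y + 176*z^2 + 16568*z + 118736 = 0)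
    (g3 : 1*x^4 + 2*x^3*y + (-17/2)*x^3 + 1*x^2*y^2 + (-13)*x^2*y + 2*x^2*z + (417/16)*x^2 + (-9/2)*x*y^2 + 2*x*y*z + (217/8)*x*y + (-17/2)*x*z + (-34)*x + (77/16)*y^2 + (-9/2)*y*z + (-18)*y + 1*z^2 + 9*z + 16 = 0)
    : y ^ 2 - 3 * z - 1 = 0 ∧ 3 * x + y - 8 = 0 ∧ 3 * y * z - 2 * y - 2 = 0 := by
  have g4 : 1*x^2*y + 1*x^2*z + (51/40)*x^2 + 1*x*y^2 + 1*x*y*z + (-93/20)*x*y + (-11/2)*x*z + (-1239/160)*x + (-223/80)*y^2 + (-7/4)*y*z + (787/160)*y + 1*z^2 + (663/80)*z + (921/80) = 0 := by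
    linear_combination ((1/40)) * g1 - ((-1)) * g3 - ((-1/20)*y + (91/160)) * g0
  have g5 : (34/31)*x^2*z + (-303/620)*x^2 + 1*x*y^2 + (34/31)*x*y*z + (-53/155)*x*y + (-246/31)*x*z + (2247/2480)*x + (-3661/1240)*y^2 + (-129/62)*y*z + (19/80)*y + (34/31)*z^2 + (17561/1240)*z + (1047/1240) = 0 := by
    linear_combination ((10/31)*y) * g0 - ((-80/31)*x) * g4 - ((-10/31)*z + (-51/124)) * g0 - (6) * g4
  have g6 : 1*x^2*z^2 + (6283/930)*x^2*z + (-199127/49600)*x^2 + 1*x*y*z^2 + (-12409/3720)*x*y*z + (29111/9300)*x*y + (-11/2)*x*z^2 + (-769909/14880)*x*z + (6541683/198400)*x + (409/240)*y^3 + (151/240)*y^2*z + (1267453/297600)*y^2 + (-11/4)*y*z^2 + (-6011/1488)*y*z + (-20209/6400)*y + 1*z^3 + (-43883/7440)*z^2 + (8045989/99200)*z + (-5863357/99200) = 0 := by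
    linear_combination ((31/3)*y) * g4 - ((31/3)*x) * g5 - ((17/12)*z + (-101/160)) * g0 - ((-1)*z + (401/24)) * g4 - ((31/3)*y + (-1843/60)) * g5
  have g7 : 1*x^2 + (2/3)*x*y + (-19/4)*x + (1/6)*y^2 + (-19/12)*y + (-1/6)*z + (11/2) = 0 := by
    linear_combination ((-5/6)*x) * g0 - ((20/3)) * g3 - ((5/6)*y + (-5/24)) * g0 - ((-20/3)) * g4
  have g8 : (-118/93)*x*y*z + (277/62)*x*y + (-59/62)*x*z + (1809/248)*x + 1*y^3 + (59/93)*y^2*z + (171/62)*y^2 + (-64/93)*y*z + (-2405/248)*y + (-413/93)*z^2 + (-59/31)*z + (-618/31) = 0 := by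
    linear_combination ((-6)) * g4 - ((-6)*y) * g7 - ((-2)) * g5 - ((-118/31)*z + (-5349/620)) * g7
  have g9 : 1*x*y*z + (27/8)*x*y + (3/4)*x*z + (135/16)*x + (-1/2)*y^2*z + (33/16)*y^2 + (-13/8)*y*z + (-111/16)*y + (7/2)*z^2 + (-69/16)*z + (-387/16) = 0 := by
    linear_combination ((-279/160)) * g0 - ((279/20)*x) * g7 - ((93/20)) * g4 - ((-279/40)) * g5 - (3*z + (-4653/80)) * g7
  have g10 : (-4061/1088)*x*y + (3/17)*x*z^2 + (1511/544)*x*z + (-22605/2176)*x + 1*y^2*z + (-5475/2176)*y^2 + (15/136)*y*z^2 + (175/1088)*y*z + (15429/2176)*y + (-541/136)*z^2 + (-9697/2176)*z + (64353/2176) = 0 := by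
    linear_combination ((-3/17)) * g6 - ((-3/17)*z^2) * g7 - ((-6283/5270)*z + (597381/843200)) * g7 - ((-409/1360)) * g8 - ((-1/17)*z + (5061/4216)) * g9
  have g11 : (64455571/705024)*x*y + 1*x*z^3 + (-101539/4896)*x*z^2 + (2297765/39168)*x*z + (7999117/52224)*x + (40512673/1410048)*y^2 + (5/8)*y*z^3 + (230483/88128)*y*z^2 + (6222815/705024)*y*z + (-271065767/1410048)*y + (-1061/216)*z^3 + (5978981/88128)*z^2 + (-227282029/1410048)*z + (-21213833/52224) = 0 := by
    linear_combination ((2312/81)*z) * g8 - ((2312/81)*y) * g10 - ((69037/648)) * g5 - ((-37859/324)*z + (224927/4320)) * g7 - ((31025/432)) * g8 - ((-310760/7533)*z + (105338773/482112)) * g9 - ((-17/3)*z + (24637/108)) * g10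
  have g12 : (-62561/848064)*x*y + 1*x*z^2 + (-80769/20192)*x*z + (1163565/565376)*x + (374641/1696128)*y^2 + (68435/106008)*y*z^2 + (-1644469/848064)*y*z + (2179441/1696128)*y + (104/4417)*z^3 + (-350617/106008)*z^2 + (16839131/1696128)*z + (-3014217/565376) = 0 := by
    linear_combination ((2176/4417)*y) * g9 - ((2176/4417)*x) * g10 - ((8122/4417)) * g4 - ((671/631)) * g5 - ((-384/4417)) * g6 - ((-2592108/684635)*z + (20155101/6846350)) * g7 - ((-1088/4417)*z + (25712/22085)) * g8 - ((-114992/410781)*z + (173326705/55866216)) * g9 - ((72/4417)*z + (149847/75089)) * g10 - ((-216/75089)) * g11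
  have g13 : (-245539576190723/56572653312)*x*y + (1066052530867/2244946560)*x*z + (-188512426797253/20952834560)*x + (-874992592404241/565726533120)*y^2 + 1*y*z^3 + (-26409354026099/35357908320)*y*z^2 + (67962428667905/56572653312)*y*z + (4647933148935887/565726533120)*y + (624/545)*z^4 + (21692943481/368311545)*z^3 + (-168864526543/2079876960)*z^2 + (-261494973813083/565726533120)*z + (497268334303553/20952834560) = 0 := by
    linear_combination ((-26502/545)) * g11 - ((-26502/545)*z) * g12 - ((-62561/17440)) * g9 - ((3901/436)) * g10 - ((22580749/27795)) * g12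
  have g14 : (-226095798777967945/50523012513792)*x*y + (252215264821417/400976289792)*x*z + (-35076426964683103/3742445371392)*x + (-162759463697034991/101046025027584)*y^2 + (-5032829475191009/6315376564224)*y*z^2 + (5273532523398535/3886385577984)*y*z + (847655294450293517/101046025027584)*y + 1*z^4 + (5576461931507/131570345088)*z^3 + (531389348687/371492739072)*z^2 + (-81227785586541653/101046025027584)*z + (92408538874772303/3742445371392) = 0 := by
    linear_combination ((2407265/64896)*z) * g9 - ((2407265/64896)*y) * g12 - ((34095745/12460032)) * g5 - ((-579627665/193130496)*z + (688734049/515014656)) * g7 - ((-204179345/24920064)) * g8 - ((16321365796465/157594484736)) * g9 - ((-66184255/1557504)*z + (10484966695/105910272)) * g10 - ((66184255/8825856)) * g11 - ((22551027985/79432704)) * g12 - ((-545/624)) * g13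
  have g15 : (28743619245431/7380285854264)*x*y + (-11129125837617/3690142927132)*x*z + (146422288058355/14760571708528)*x + (24699219624257/14760571708528)*y^2 + 1*y*z^2 + (-19235866744661/7380285854264)*y*z + (-93134407449931/14760571708528)*y + (-55934626800/922535731783)*z^3 + (-552255534305/922535731783)*z^2 + (95503554939547/14760571708528)*z + (-384638775776667/14760571708528) = 0 := by
    linear_combination ((-491247856512/922535731783)*z^2) * g7 - ((-491247856512/922535731783)*x) * g12 - ((-36238959738/922535731783)) * g4 - ((144745857927/922535731783)) * g5 - ((-64713439819044/28598607685273)*z + (69932892396087/57197215370546)) * g7 - ((-10366401168/922535731783)*z + (6606842760477/228788861482184)) * g9 - ((-87057843336/922535731783)*z + (163577774025/922535731783)) * g10 - ((26929772568/922535731783)) * g11 - ((1487864658591/922535731783)) * g12 - ((-7229139840/922535731783)) * g13 - ((902196652032/100556394764347)) * g14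
  have g16 : (139278949493881053309733/13530775209073684180736)*x*y + (3182652046766545625489/178036515908864265536)*x*z + (7937529071007259152417/1040828862236437244672)*x + (43716605657607754437173/27061550418147368361472)*y^2 + (83855685455093759052239/13530775209073684180736)*y*z + (-349272339068732720132459/13530775209073684180736)*y + 1*z^3 + (3992959093408582568889/1691346901134210522592)*z^2 + (-1172943179578662546711493/27061550418147368361472)*z + (-525714854370353088732219/27061550418147368361472) = 0 := by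
    linear_combination ((851072176416395316359089/18143078208466676275844384)) * g13 - ((851072176416395316359089/18143078208466676275844384)*z) * g15 - ((-1395632411298716308643867/7639190824617547905618688)) * g9 - ((-6162866058151071957111713/36286156416933352551688768)) * g10 - ((211516472576994994448649165/1233729318175733986757418112)) * g12 - ((9639310171109813496/170448236153503094455)) * g14 - ((547620380225601583260113557/54429234625400028827533152)) * g15
  have g17 : 1*x*y + (380/297)*x*z + (107/99)*x + (11/54)*y^2 + (155/297)*y*z + (-727/297)*y + (104/297)*z^2 + (-1865/594)*z + (-191/66) = 0 := by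
    linear_combination ((-236977282601586725771267016261644073334784/309448555161264558286393830694034832473951175)) * g14 - ((-236977282601586725771267016261644073334784/309448555161264558286393830694034832473951175)*z) * g16 - ((2439324167659656168682986345131564704422952/309448555161264558286393830694034832473951175)) * g9 - ((534162415159673512636750759953156041991544/103149518387088186095464610231344944157983725)) * g10 - ((67209651742790268047683136400415656892743976/5260625437741497490868695121798592152057169975)) * g12 - ((97797137040455825690118003611097537122267501091229/161325496049043406953473925822148706090276408755335)) * g15 - ((14913933504775056666743029456235545495277844314150724352/2569296143564003167689605301823122278543235235626339255225)) * g16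
  have g18 : (-95/22)*x*z + (4809/880)*x + 1*y^2 + (-239/220)*y*z + (1627/880)*y + (-13/11)*z^2 + (98/11)*z + (-171/11) = 0 := by
    linear_combination ((9/20)) * g2 - ((-684/5)*x^3) * g7 - ((93/4)*x*y + (-567/10)*x + (-27/5)*y^2 + (2379/40)*y + (471/20)*z + (3609/32)) * g0 - ((-342/5)*y^2 + (-1026/155)*y*z + (2335347/3100)*y + (1026/155)*z^2 + (9471861/48050)*z + (-10984327461/3844000)) * g4 - ((342/5)*y^2 + (-2082609/3100)*y + (-3169371/24025)*z + (9710466387/3844000)) * g5 - ((-1026/155)*z + (-48138837/2979100)) * g6 - ((-2891704704863/1847042000)*z + (730800241108977/73881680000)) * g7 - ((69939/6200)*y + (1593093/192200)*z + (-10380544193/119164000)) * g8 - ((-159293131/2979100)*z + (-335394034111/25119771200)) * g9 - ((-855/31)*z + (27657185213/101289400)) * g10 - ((2565/527)) * g11 - ((-3799221/653480)) * g12 - ((-105032090725/1731852696)) * g15 - ((137383188166136952/31029489338521205)) * g16 - ((19068178958290626660009/17716740273948667370720)) * g17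
  have g19 : 1*x*z + (-40867/50440)*x + (14071/37830)*y*z + (-14761/50440)*y + (-18/1261)*z^2 + (-10070/3783)*z + (2696/1261) = 0 := by
    linear_combination ((-3520/7857)) * g10 - ((-3520/7857)*z) * g18 - ((-268960/133569)) * g12 - ((1351907092/1769922819)) * g15 - ((-22108841848496000/50738542712333217)) * g16 - ((2645097020311424677801/871779766601818531002)) * g17 - ((38786/102141)) * g18
  have g20 : (-12314613/2135572)*x + 1*y*z + (-5463519/2135572)*y + (-73200/533893)*z^2 + (24400/533893)*z + (7870080/533893) = 0 := by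
    linear_combination ((310073595/11745646)) * g12 - ((310073595/11745646)*z) * g19 - ((2997890317071/415044147056)) * g15 - ((54473881933882630050/37925223447559233863)) * g16 - ((-113763291127754871839691227/2535748830653186003316608)) * g17 - ((259730789/461283552)) * g18 - ((-10624998111/375860672)) * g19
  have g21 : (75087785/10418916)*x + (22713947/10418916)*y + 1*z^2 + (-1/3)*z + (-50637352/2604729) = 0 := by
    linear_combination ((-285041735449/295610694210)) * g15 - ((-285041735449/295610694210)*z) * g20 - ((-223443177209884086640/3030126978954477678627)) * g16 - ((-187264818517063983659388808366379/62497528949277026120463501074040)) * g17 - ((-9539271940506793/10790972781441840)) * g18 - ((-297041556694547/225452422784160)) * g19 - ((15475946672545721/9691892220369060)) * g20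
  have g22 : 1*x + (1/3)*y + (-8/3) = 0 := by
    linear_combination ((1507691814098/8623417846387)) * g16 - ((1507691814098/8623417846387)*z) * g21 - ((5526045579686664321452168259210943/3070566537194126297343111252436864)) * g17 - ((-3311645069666257/39348655633063881)) * g18 - ((-2961857127948512/3699446256100023)) * g19 - ((-775723086628418803/25445463976047976380)) * g20 - ((-1262536210398829251/4603982424261094591)) * g21
  refine ⟨?_, ?_, ?_⟩
  · linear_combination (1) * g18 + ((95/22)) * g19 + ((-9832/18915)) * g20 + ((625824/533893)) * g21 + ((-23288607/1736486)) * g22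
  · linear_combination (3) * g22
  · linear_combination (3) * g20 + ((219600/533893)) * g21 + ((49784889/3472972)) * g22

lemma key (x g D E y z : ℂ)
    (h2 : 1*x + 1*g = 4)
    (h3 : 2*x^2 + 3*x*g + 1*g^2 + 1*D + 1*E = 27)
    (h4 : 6*x^3 + 11*x^2*g + 6*x*g^2 + 7*x*D + 6*x*E + 1*g^3 + 4*g*D + 3*g*E + 1*D*y + 1*E*y = 256)
    (h5 : 24*x^4 + 50*x^3*g + 35*x^2*g^2 + 46*x^2*D + 35*x^2*E + 10*x*g^3 + 45*x*g*D + 30*x*g*E + 11*x*D*y + 10*x*E*y + 1*g^4 + 10*g^2*D + 6*g^2*E + 5*g*D*y + 4*g*E*y + 7*D^2 + 10*D*E + 1*D*y^2 + 2*D*z + 3*E^2 + 1*E*y^2 + 2*E*z = 3125)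
    (h6 : 120*x^5 + 274*x^4*g + 225*x^3*g^2 + 326*x^3*D + 225*x^3*E + 85*x^2*g^3 + 421*x^2*g*D + 255*x^2*g*E + 101*x^2*D*y + 85*x^2*E*y + 15*x*g^4 + 165*x*g^2*D + 90*x*g^2*E + 81*x*g*D*y + 60*x*g*E*y + 127*x*D^2 + 165*x*D*E + 16*x*D*y^2 + 32*x*D*z + 45*x*E^2 + 15*x*E*y^2 + 30*x*E*z + 1*g^5 + 20*g^3*D + 10*g^3*E + 15*g^2*D*y + 10*g^2*E*y + 52*g*D^2 + 60*g*D*E + 6*g*D*y^2 + 12*g*D*z + 15*g*E^2 + 5*g*E*y^2 + 10*g*E*z + 25*D^2*y + 35*D*E*y + 1*D*y^3 + 8*D*y*z + 10*E^2*y + 1*E*y^3 + 8*E*y*z = 46656)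
    (h7 : 720*x^6 + 1764*x^5*g + 1624*x^4*g^2 + 2556*x^4*D + 1624*x^4*E + 735*x^3*g^3 + 3948*x^3*g*D + 2205*x^3*g*E + 932*x^3*D*y + 735*x^3*E*y + 175*x^2*g^4 + 2086*x^2*g^2*D + 1050*x^2*g^2*E + 1008*x^2*g*D*y + 700*x^2*g*E*y + 1740*x^2*D^2 + 2086*x^2*D*E + 197*x^2*D*y^2 + 394*x^2*D*z + 525*x^2*E^2 + 175*x^2*E*y^2 + 350*x^2*E*z + 21*x*g^5 + 455*x*g^3*D + 210*x*g^3*E + 336*x*g^2*D*y + 210*x*g^2*E*y + 1281*x*g*D^2 + 1365*x*g*D*E + 133*x*g*D*y^2 + 266*x*g*D*z + 315*x*g*E^2 + 105*x*g*E*y^2 + 210*x*g*E*z + 606*x*D^2*y + 791*x*D*E*y + 22*x*D*y^3 + 176*x*D*y*z + 210*x*E^2*y + 21*x*E*y^3 + 168*x*E*y*z + 1*g^6 + 35*g^4*D + 15*g^4*E + 35*g^3*D*y + 20*g^3*E*y + 217*g^2*D^2 + 210*g^2*D*E + 21*g^2*D*y^2 + 42*g^2*D*z + 45*g^2*E^2 + 15*g^2*E*y^2 + 30*g^2*E*z + 210*g*D^2*y + 245*g*D*E*y + 7*g*D*y^3 + 56*g*D*y*z + 60*g*E^2*y + 6*g*E*y^3 + 48*g*E*y*z + 127*D^3 + 217*D^2*E + 66*D^2*y^2 + 82*D^2*z + 105*D*E^2 + 91*D*E*y^2 + 112*D*E*z + 1*D*y^4 + 22*D*y^2*z + 16*D*z^2 + 15*E^3 + 25*E^2*y^2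 + 30*E^2*z + 1*E*y^4 + 22*E*y^2*z + 16*E*z^2 = 823543)
    (hc : z = (E - z) * (y - (E - z))) :
    (x = 2 ∧ g = 2 ∧ D = 1 ∧ E = 2 ∧ y = 2 ∧ z = 1) ∨ (D = -1 ∧ E = z) := by
  obtain rfl : g = 4 - x := by linear_combination h2
  obtain rfl : E = 11 - 4 * x - D := by linear_combination h3
  obtain rfl : D = 1*x^2 + 1*x*y + (-33/4)*x + (-11/4)*y + 15 := by linear_combination (1 / 4) * h4
  have g0 : (-8)*x^3 + (-8)*x^2*y + 66*x^2 + 44*x*y + (-8)*x*z + (-183)*x + (-61)*y + 22*z + 170 = 0 := by linear_combination h5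
  have g1 : (-40)*x^4 + (-64)*x^3*y + 158*x^3 + (-24)*x^2*y^2 + 246*x^2*y + (-40)*x^2*z + 510*x^2 + 132*x*y^2 + (-24)*x*y*z + 96*x*y + (-62)*x*z + (-3113)*x + (-182)*y^2 + 66*y*z + (-811)*y + 472*z + 3688 = 0 := by linear_combination h6 - (4*x + 4) * g0
  have g2 : (-304)*x^5 + (-616)*x^4*y + 2452*x^4 + (-368)*x^3*y^2 + 3842*x^3*y + (-368)*x^3*z + (-11993)*x^3 + (-56)*x^2*y^3 + 1830*x^2*y^2 + (-376)*x^2*y*z + (-11767)*x^2*y + 1308*x^2*z + (203539/4)*x^2 + 308*x*y^3 + (-56)*x*y^2*z + (-1724)*x*y^2 + 862*x*y*z + (57331/2)*x*y + (-64)*x*z^2 + (-6857)*x*z + (-126202)*x + (-424)*y^3 + 154*y^2*z + (-5881/4)*y^2 + 469*y*z + (-35014)*y + 176*z^2 + 16568*z + 118736 = 0 := by linear_combination h7 - (24*x^2 + 4*x*y + (-1)*x + (-11)*y + 87) * g0 - (5*x + 4) * g1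
  have g3 : 1*x^4 + 2*x^3*y + (-17/2)*x^3 + 1*x^2*y^2 + (-13)*x^2*y + 2*x^2*z + (417/16)*x^2 + (-9/2)*x*y^2 + 2*x*y*z + (217/8)*x*y + (-17/2)*x*z + (-34)*x + (77/16)*y^2 + (-9/2)*y*z + (-18)*y + 1*z^2 + 9*z + 16 = 0 := by linear_combination hc
  obtain ⟨e1, e2, e3⟩ := elim x y z g0 g1 g2 g3
  have hy : (y - 2) * (y + 1) ^ 2 = 0 := by linear_combination y * e1 + e3
  rcases mul_eq_zero.1 hy with hy | hy
  · obtain rfl : y = 2 := by linear_combination hy
    obtain rfl : x = 2 := by linear_combination (1 / 3) * e2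
    obtain rfl : z = 1 := by linear_combination (-1 / 3) * e1
    left; norm_num
  · obtain rfl : y = -1 := by linear_combination pow_eq_zero_iff (two_ne_zero) |>.1 hy
    obtain rfl : x = 3 := by linear_combination (1 / 3) * e2
    obtain rfl : z = 0 := by linear_combination (-1 / 3) * e1
    right; norm_num

lemma lin (P : MvPolynomial (Fin 2) ℂ) (h : P.totalDegree ≤ 1) :
    ∃ a b c : ℂ, P = C a * X 0 + C b * X 1 + C c := by
  refine ⟨coeff (Finsupp.single 0 1) P, coeff (Finsupp.single 1 1) P, coeff 0 P, ?_⟩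
  have n01 : (Finsupp.single (0 : Fin 2) 1 : Fin 2 →₀ ℕ) ≠ Finsupp.single 1 1 := by
    intro hh; have := congrArg (· 0) hh; simp at this
  have n0 : (Finsupp.single (0 : Fin 2) 1 : Fin 2 →₀ ℕ) ≠ 0 := by simp
  have n1 : (Finsupp.single (1 : Fin 2) 1 : Fin 2 →₀ ℕ) ≠ 0 := by simp
  ext m
  simp only [coeff_add, coeff_C, coeff_C_mul, coeff_X]
  by_cases h0 : m = 0
  · subst h0; simp [n0, n1]
  by_cases h1 : m = Finsupp.single 0 1
  · subst h1; simp [n01.symm, n0.symm]
  by_cases h2 : m = Finsupp.single 1 1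
  · subst h2; simp [n01, n1.symm]
  rw [if_neg (Ne.symm h0), if_neg (Ne.symm h1), if_neg (Ne.symm h2)]
  simp only [mul_zero, add_zero]
  by_contra hne
  have hm := (le_totalDegree (mem_support_iff.2 hne)).trans h
  rw [Finsupp.sum_fintype _ _ (by simp), Fin.sum_univ_two] at hm
  have : (m 0 = 0 ∧ m 1 = 0) ∨ (m 0 = 1 ∧ m 1 = 0) ∨ (m 0 = 0 ∧ m 1 = 1) := by omega
  rcases this with ⟨p, q⟩ | ⟨p, q⟩ | ⟨p, q⟩
  · exact h0 (by ext i; fin_cases i <;> simp [p, q])
  · exact h1 (by ext i; fin_cases i <;> simp [p, q])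
  · exact h2 (by ext i; fin_cases i <;> simp [p, q])

def T (a b c d e f : ℂ) : ℕ → ℕ → ℂ
  | 0, 0 => 1
  | 0, _ + 1 => 0
  | _ + 1, 0 => 0
  | m + 1, n + 1 => (a * m + b * (n + 1) + c) * T a b c d e f m (n + 1)
      + (d * m + e * (n + 1) + f) * T a b c d e f m n

lemma S_eq (a b c d e f : ℂ) (m n : ℕ) :
    S (C a * X 0 + C b * X 1 + C c) (C d * X 0 + C e * X 1 + C f) m n = T a b c d e f m n := by
  induction m generalizing n with
  | zero => cases n <;> simp [S, T]
  | succ m ih => cases n with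
    | zero => simp [S, T]
    | succ n => simp [S, T, ih]

lemma only (a b c d e f : ℂ) (h : ∀ m : ℕ, 1 ≤ m → ∑ n ∈ Icc 1 m, T a b c d e f m n = (m : ℂ) ^ m) :
    a = 1 ∧ b = 0 ∧ c = 0 ∧ d = 1 ∧ e = 1 ∧ f = 0 := by
  have h1 := h 1 (by norm_num)
  have h2 := h 2 (by norm_num)
  have h3 := h 3 (by norm_num)
  have h4 := h 4 (by norm_num)
  have h5 := h 5 (by norm_num)
  have h6 := h 6 (by norm_num)
  have h7 := h 7 (by norm_num)
  simp only [sum_Icc_succ_top (by norm_num : 1 ≤ 6 + 1), sum_Icc_succ_top (by norm_num : 1 ≤ 5 + 1),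
    sum_Icc_succ_top (by norm_num : 1 ≤ 4 + 1), sum_Icc_succ_top (by norm_num : 1 ≤ 3 + 1),
    sum_Icc_succ_top (by norm_num : 1 ≤ 2 + 1), sum_Icc_succ_top (by norm_num : 1 ≤ 1 + 1),
    Icc_self, sum_singleton, T, mul_zero, zero_add, add_zero, mul_one, Nat.cast_zero, Nat.cast_one,
    Nat.cast_ofNat] at h1 h2 h3 h4 h5 h6 h7
  obtain rfl : f = 1 - e := by linear_combination h1
  rcases key (a + d) (c + b + 1 + e) (d * (b + e)) ((1 + e) * (b + e)) (b + 2 * e) (e * (b + e))
    (by linear_combination h2) (by linear_combination h3) (by linear_combination h4)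
    (by linear_combination h5) (by linear_combination h6) (by linear_combination h7) (by ring)
    with ⟨k1, k2, k3, k4, k5, k6⟩ | ⟨k1, k2⟩
  · have hb : b + e = 1 := by linear_combination k4 - k6
    obtain rfl : e = 1 := by linear_combination k5 - hb
    obtain rfl : b = 0 := by linear_combination hb
    obtain rfl : d = 1 := by linear_combination k3
    refine ⟨by linear_combination k1, rfl, by linear_combination k2, rfl, rfl, by ring⟩
  · exfalso
    have hb : b + e = 0 := by linear_combination k2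
    rw [hb] at k1
    norm_num at k1

def H : ℕ → ℂ → ℕ → ℂ
  | 0, _, _ => 1
  | m + 1, x, 0 => x * H m x 0
  | m + 1, x, j + 1 => H (m + 1) x j + (x + j + 1) * H m x (j + 1)

lemma H0 (x : ℂ) (j : ℕ) : H 0 x j = 1 := by rw [H]

lemma H1 (m : ℕ) (x : ℂ) : H (m + 1) x 0 = x * H m x 0 := by rw [H]

lemma H2 (m : ℕ) (x : ℂ) (j : ℕ) :
    H (m + 1) x (j + 1) = H (m + 1) x j + (x + j + 1) * H m x (j + 1) := by rw [H]

lemma H_shift (m : ℕ) (x : ℂ) (j : ℕ) :
    H (m + 1) (x + 1) j = H (m + 1) x j + (j + 1) * H m x (j + 1) := by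
  induction m generalizing j with
  | zero =>
    induction j with
    | zero => simp [H]
    | succ j ih => rw [H2, ih, H2 0 x j]; simp only [H0]; push_cast; ring
  | succ m ihm =>
    induction j with
    | zero =>
      rw [H1, ihm 0, H1 (m + 1) x, H2 m x 0]; push_cast; ring
    | succ j ih =>
      rw [H2, ih, ihm (j + 1), H2 (m + 1) x j, H2 m x (j + 1)]; push_cast; ring

lemma H_zero (m : ℕ) (x : ℂ) : H m x 0 = x ^ m := by
  induction m with
  | zero => simp [H]
  | succ m ih => rw [H, ih]; ring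

lemma T_big (a b c d e f : ℂ) (m n : ℕ) (h : m < n) : T a b c d e f m n = 0 := by
  induction m generalizing n with
  | zero => cases n with
    | zero => omega
    | succ n => rfl
  | succ m ih => cases n with
    | zero => rfl
    | succ n => rw [T, ih _ (by omega), ih _ (by omega)]; ring

noncomputable def A (m j : ℕ) : ℂ :=
  ∑ n ∈ range (m + 1), T 1 0 0 1 1 0 m n * ((m + n + j).choose j : ℂ)

lemma D_eq (m j : ℕ) : ∑ n ∈ range (m + 2), T 1 0 0 1 1 0 (m + 1) n * ((m + n + j).choose j : ℂ)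
    = m * A m j + (j + 1) * A m (j + 1) := by
  have h0 : (m : ℂ) * T 1 0 0 1 1 0 m 0 = 0 := by cases m <;> simp [T]
  have h1 : ∑ n ∈ range (m + 1), T 1 0 0 1 1 0 m (n + 1) * ((m + (n + 1) + j).choose j : ℂ)
      + T 1 0 0 1 1 0 m 0 * ((m + 0 + j).choose j : ℂ) = A m j := by
    rw [← sum_range_succ' (fun n => T 1 0 0 1 1 0 m n * ((m + n + j).choose j : ℂ)), sum_range_succ,
      T_big _ _ _ _ _ _ m (m + 1) (by omega), zero_mul, add_zero, A]
  have h2 : ∀ n : ℕ, ((m : ℂ) + n + 1) * ((m + (n + 1) + j).choose j : ℂ)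
      = (j + 1) * ((m + n + (j + 1)).choose (j + 1) : ℂ) := by
    intro n
    have := Nat.choose_succ_right_eq (m + n + (j + 1)) j
    rw [show m + n + (j + 1) - j = m + n + 1 by omega] at this
    rw [show m + (n + 1) + j = m + n + (j + 1) by ring]
    have := congrArg (Nat.cast : ℕ → ℂ) this
    push_cast at this
    linear_combination -this
  have h3 : T 1 0 0 1 1 0 (m + 1) 0 = 0 := rfl
  rw [sum_range_succ', ← h1, A, mul_add, mul_sum, mul_sum, ← mul_assoc, h0, h3, zero_mul,
    add_zero, add_zero, ← sum_add_distrib]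
  refine sum_congr rfl fun n _ => ?_
  rw [T]
  linear_combination T 1 0 0 1 1 0 m n * h2 n

lemma A_eq (m j : ℕ) : A m j = H m m j := by
  induction m generalizing j with
  | zero => simp [A, T, H]
  | succ m ih =>
    induction j with
    | zero =>
      have := D_eq m 0
      simp only [Nat.choose_zero_right] at this
      simp only [A, Nat.choose_zero_right]
      rw [this, ih, ih]; push_cast
      rw [H_shift, H]; push_cast; ring
    | succ j ihj =>
      have h1 : A (m + 1) (j + 1) = A (m + 1) j + ∑ n ∈ range (m + 2),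
          T 1 0 0 1 1 0 (m + 1) n * ((m + n + (j + 1)).choose (j + 1) : ℂ) := by
        rw [A, A, ← sum_add_distrib]
        refine sum_congr rfl fun n _ => ?_
        rw [show m + 1 + n + (j + 1) = (m + n + (j + 1)) + 1 by ring, Nat.choose_succ_succ',
          show m + 1 + n + j = m + n + (j + 1) by ring]
        push_cast; ring
      rw [h1, ihj, D_eq, ih, ih]; push_cast
      rw [H_shift, H_shift, H2 m (m : ℂ) j]; push_cast; ring

lemma shor (m : ℕ) (hm : 1 ≤ m) : ∑ n ∈ Icc 1 m, T 1 0 0 1 1 0 m n = (m : ℂ) ^ m := by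
  have h := A_eq m 0
  rw [H_zero, A, sum_range_succ'] at h
  obtain ⟨k, rfl⟩ : ∃ k, m = k + 1 := ⟨m - 1, by omega⟩
  simp only [Nat.choose_zero_right, Nat.cast_one, mul_one, T.eq_3, add_zero] at h
  rw [← h, range_eq_Ico, sum_Ico_add' (fun n => T 1 0 0 1 1 0 (k + 1) n) 0 (k + 1) 1]
  rfl

theorem result (P Q : MvPolynomial (Fin 2) ℂ) (hP : P.totalDegree ≤ 1) (hQ : Q.totalDegree ≤ 1) :
    Admissible P Q ↔ P = X 0 ∧ Q = X 0 + X 1 := by
  constructor
  · intro h
    obtain ⟨a, b, c, rfl⟩ := lin P hP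
    obtain ⟨d, e, f, rfl⟩ := lin Q hQ
    obtain ⟨rfl, rfl, rfl, rfl, rfl, rfl⟩ := only a b c d e f (fun m hm => by
      simpa only [S_eq] using h m hm)
    simp
  · rintro ⟨rfl, rfl⟩ m hm
    have h := shor m hm
    simp only [← S_eq] at h
    simpa using h

end Pool.Agent.Results.MP_97c21f_co.Linear
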